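import Mathlib

set_option autoImplicit false

/-!
# Finite groups of bireversible automata beyond `(p!)^q`

For every alphabet with at least three letters, the group of a bireversible automaton can be finite
and much larger than `(p!)^q`.
-/

namespace Pool.Agent.Results.MP_965ec6_al.LargeFinite

open scoped Nat

/-- A Mealy automaton with state set `A` and alphabet `X`: transition functions `δ i : A → A`
for the letters `i` and production functions `ρ x : X → X` for the states `x`. -/
structure Mealy (A X : Type) where
  /-- the transition function of a letter -/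
  δ : X → A → A
  /-- the production function of a state -/
  ρ : A → X → X

namespace Mealy

variable {A X : Type}

/-- The action of a state on words: `ρ_x(i w) = ρ_x(i) ρ_{δ_i(x)}(w)`. -/
def act (M : Mealy A X) : A → List X → List X
  | _, [] => []
  | x, i :: w => M.ρ x i :: M.act (M.δ i x) w

/-- `M` is invertible: every production function is a permutation. -/
def Invertible (M : Mealy A X) : Prop := ∀ x, Function.Bijective (M.ρ x)

/-- `M` is reversible: every transition function is a permutation. -/
def Reversible (M : Mealy A X) : Prop := ∀ i, Function.Bijective (M.δ i)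

/-- `M` is bireversible: it is invertible and reversible, and for every letter `j` the map
`x ↦ δ_{ρ_x⁻¹(j)}(x)` is a permutation of the states. -/
def Bireversible (M : Mealy A X) : Prop :=
  ∃ h : M.Invertible, M.Reversible ∧
    ∀ j, Function.Bijective (fun x => M.δ ((Equiv.ofBijective (M.ρ x) (h x)).symm j) x)

/-- The group generated by `M`: the group of bijections of the set of words generated by the maps
`M.act x` (they are bijections when `M` is invertible, see `act_bijective`). -/
def group (M : Mealy A X) : Subgroup (Equiv.Perm (List X)) :=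
  Subgroup.closure {g | ∃ x : A, ∀ w, g w = M.act x w}

/-- If `M` is invertible, then every state acts as a bijection of the set of words. -/
theorem act_bijective (M : Mealy A X) (h : M.Invertible) (x : A) :
    Function.Bijective (M.act x) := by
  constructor
  · intro w
    induction w generalizing x with
    | nil =>
      intro v hv
      cases v with
      | nil => rfl
      | cons j v => simp [act] at hv
    | cons i w ih =>
      intro v hv
      cases v with
      | nil => simp [act] at hv
      | cons j v =>
        simp only [act, List.cons.injEq] at hv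
        obtain ⟨h1, h2⟩ := hv
        have h3 : i = j := (h x).1 h1
        subst h3
        rw [ih _ h2]
  · intro w
    induction w generalizing x with
    | nil => exact ⟨[], rfl⟩
    | cons i w ih =>
      obtain ⟨j, hj⟩ := (h x).2 i
      obtain ⟨v, hv⟩ := ih (M.δ j x)
      exact ⟨j :: v, by simp [act, hj, hv]⟩

end Mealy

/-! ### Letterwise actions -/

section letterwise

variable {L : Type}

/-- apply the `k`-th permutation of a sequence to the `k`-th letter -/
def app : (ℕ → Equiv.Perm L) → List L → List L
  | _, [] => []
  | f, i :: w => f 0 i :: app (fun k => f (k + 1)) w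

theorem app_mul (w : List L) : ∀ f g : ℕ → Equiv.Perm L, app (f * g) w = app f (app g w) := by
  induction w with
  | nil => intro f g; rfl
  | cons i w ih =>
    intro f g
    change ((f * g) 0) i :: app (fun k => (f * g) (k + 1)) w = _
    have h := ih (fun k => f (k + 1)) (fun k => g (k + 1))
    have h2 : (fun k => (f * g) (k + 1)) = (fun k => f (k + 1)) * (fun k => g (k + 1)) := rfl
    rw [h2, h]
    rfl

theorem app_one (w : List L) : app (1 : ℕ → Equiv.Perm L) w = w := by
  induction w with
  | nil => rfl
  | cons i w ih =>
    change (1 : ℕ → Equiv.Perm L) 0 i :: app (1 : ℕ → Equiv.Perm L) w = _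
    rw [ih]; rfl

/-- the letterwise action as a homomorphism -/
def P : (ℕ → Equiv.Perm L) →* Equiv.Perm (List L) where
  toFun f :=
    { toFun := app f
      invFun := app f⁻¹
      left_inv := fun w => by rw [← app_mul, inv_mul_cancel, app_one]
      right_inv := fun w => by rw [← app_mul, mul_inv_cancel, app_one] }
  map_one' := by
    ext1 w
    exact app_one w
  map_mul' f g := by
    ext1 w
    exact app_mul w f g

theorem P_apply (f : ℕ → Equiv.Perm L) (w : List L) : P f w = app f w := rfl

theorem app_inj (x : L) : ∀ (k : ℕ) (f g : ℕ → Equiv.Perm L),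
    (∀ w, app f w = app g w) → ∀ y, f k y = g k y := by
  intro k
  induction k with
  | zero =>
    intro f g h y
    have := h [y]
    simpa [app] using this
  | succ k ih =>
    intro f g h y
    refine ih (fun k => f (k + 1)) (fun k => g (k + 1)) ?_ y
    intro w
    have := h (x :: w)
    simp only [app, List.cons.injEq] at this
    exact this.2

theorem P_injective : Function.Injective (P : (ℕ → Equiv.Perm L) →* _) := by
  intro f g h
  funext k
  ext1 y
  refine app_inj y k f g ?_ y
  intro w
  have := congrArg (fun σ : Equiv.Perm (List L) => σ w) h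
  exact this

end letterwise

/-! ### The automaton -/

/-- two cycles of lengths `m` and `n` -/
abbrev St (m n : ℕ) : Type := ZMod m ⊕ ZMod n

/-- the common transition permutation -/
def tau (m n : ℕ) : St m n → St m n := Sum.map (· + 1) (· + 1)

theorem tau_bij (m n : ℕ) : Function.Bijective (tau m n) :=
  ⟨Function.Injective.sumMap (add_left_injective 1) (add_left_injective 1),
    Function.Surjective.sumMap (add_right_surjective 1) (add_right_surjective 1)⟩

section aut

variable {L : Type} (m n : ℕ) (a b : Equiv.Perm L)

open Classical in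
/-- the productions: the state `0` of the first cycle produces `a`, the state `0` of the second
cycle produces `b`, the other states produce the identity -/
noncomputable def prod : St m n → Equiv.Perm L
  | Sum.inl i => if i = 0 then a else 1
  | Sum.inr j => if j = 0 then b else 1

/-- the automaton -/
noncomputable def aut : Mealy (St m n) L where
  δ := fun _ => tau m n
  ρ := fun x => prod m n a b x

/-- the sequence of productions along the orbit of a state -/
noncomputable def sq (x : St m n) : ℕ → Equiv.Perm L := fun k => prod m n a b ((tau m n)^[k] x)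

theorem act_eq (w : List L) : ∀ x, (aut m n a b).act x w = app (sq m n a b x) w := by
  induction w with
  | nil => intro x; rfl
  | cons i w ih =>
    intro x
    change prod m n a b x i :: (aut m n a b).act (tau m n x) w = _
    rw [ih]
    rfl

theorem iter_inl (k : ℕ) : ∀ i : ZMod m, (tau m n)^[k] (Sum.inl i) = Sum.inl (i + k) := by
  induction k with
  | zero => intro i; simp
  | succ k ih =>
    intro i
    rw [Function.iterate_succ_apply]
    change (tau m n)^[k] (Sum.inl (i + 1)) = _
    rw [ih]
    congr 1
    push_cast
    ring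

theorem iter_inr (k : ℕ) : ∀ j : ZMod n, (tau m n)^[k] (Sum.inr j) = Sum.inr (j + k) := by
  induction k with
  | zero => intro j; simp
  | succ k ih =>
    intro j
    rw [Function.iterate_succ_apply]
    change (tau m n)^[k] (Sum.inr (j + 1)) = _
    rw [ih]
    congr 1
    push_cast
    ring

/-- the group of sequences generated by the states -/
noncomputable def K : Subgroup (ℕ → Equiv.Perm L) := Subgroup.closure (Set.range (sq m n a b))

theorem group_eq : (aut m n a b).group = (K m n a b).map P := by
  rw [K, MonoidHom.map_closure]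
  unfold Mealy.group
  congr 1
  ext g
  constructor
  · rintro ⟨x, hx⟩
    refine ⟨sq m n a b x, ⟨x, rfl⟩, ?_⟩
    ext1 w
    rw [hx, act_eq]
    rfl
  · rintro ⟨f, ⟨x, rfl⟩, rfl⟩
    refine ⟨x, fun w => ?_⟩
    rw [act_eq]
    rfl

theorem bireversible : (aut m n a b).Bireversible := by
  refine ⟨fun x => (prod m n a b x).bijective, fun i => tau_bij m n, fun j => tau_bij m n⟩

/-- sequences that depend only on the position modulo `m` and modulo `n` -/
def F : ((ZMod m × ZMod n) → Equiv.Perm L) →* (ℕ → Equiv.Perm L) where
  toFun e := fun k => e ((k : ZMod m), (k : ZMod n))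
  map_one' := rfl
  map_mul' _ _ := rfl

theorem K_le : K m n a b ≤ (F (L := L) m n).range := by
  rw [K, Subgroup.closure_le]
  rintro _ ⟨x, rfl⟩
  rcases x with i | j
  · refine ⟨fun p => prod m n a b (Sum.inl (i + p.1)), ?_⟩
    funext k
    change prod m n a b (Sum.inl (i + (k : ZMod m))) = prod m n a b ((tau m n)^[k] (Sum.inl i))
    rw [iter_inl]
  · refine ⟨fun p => prod m n a b (Sum.inr (j + p.2)), ?_⟩
    funext k
    change prod m n a b (Sum.inr (j + (k : ZMod n))) = prod m n a b ((tau m n)^[k] (Sum.inr j))
    rw [iter_inr]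

theorem K_finite [Finite L] [NeZero m] [NeZero n] : Finite (K m n a b) := by
  have : Finite (F (L := L) m n).range := by
    have := Finite.of_surjective _ (F (L := L) m n).rangeRestrict_surjective
    exact this
  exact Finite.Set.subset _ (K_le m n a b)

open Classical in
theorem comm_mem (i : ZMod m) (j : ZMod n) :
    F (L := L) m n (Pi.mulSingle (i, j) (a * b * a⁻¹ * b⁻¹)) ∈ K m n a b := by
  have h1 : sq m n a b (Sum.inl (-i)) ∈ K m n a b := Subgroup.subset_closure ⟨_, rfl⟩
  have h2 : sq m n a b (Sum.inr (-j)) ∈ K m n a b := Subgroup.subset_closure ⟨_, rfl⟩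
  have h3 : sq m n a b (Sum.inl (-i)) * sq m n a b (Sum.inr (-j)) *
      (sq m n a b (Sum.inl (-i)))⁻¹ * (sq m n a b (Sum.inr (-j)))⁻¹ ∈ K m n a b :=
    mul_mem (mul_mem (mul_mem h1 h2) (inv_mem h1)) (inv_mem h2)
  have h4 : F (L := L) m n (Pi.mulSingle (i, j) (a * b * a⁻¹ * b⁻¹)) =
      sq m n a b (Sum.inl (-i)) * sq m n a b (Sum.inr (-j)) *
      (sq m n a b (Sum.inl (-i)))⁻¹ * (sq m n a b (Sum.inr (-j)))⁻¹ := by
    funext k
    change (Pi.mulSingle (i, j) (a * b * a⁻¹ * b⁻¹) : (ZMod m × ZMod n) → Equiv.Perm L)
        ((k : ZMod m), (k : ZMod n)) =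
      prod m n a b ((tau m n)^[k] (Sum.inl (-i))) * prod m n a b ((tau m n)^[k] (Sum.inr (-j))) *
      (prod m n a b ((tau m n)^[k] (Sum.inl (-i))))⁻¹ *
      (prod m n a b ((tau m n)^[k] (Sum.inr (-j))))⁻¹
    rw [iter_inl, iter_inr]
    simp only [prod, Pi.mulSingle_apply, Prod.mk.injEq]
    have e1 : (-i + (k : ZMod m) = 0) ↔ ((k : ZMod m) = i) := by
      rw [neg_add_eq_zero]; exact eq_comm
    have e2 : (-j + (k : ZMod n) = 0) ↔ ((k : ZMod n) = j) := by
      rw [neg_add_eq_zero]; exact eq_comm
    simp only [e1, e2]
    by_cases c1 : (k : ZMod m) = i <;> by_cases c2 : (k : ZMod n) = j <;> simp [c1, c2]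
  rw [h4]
  exact h3

/-- the part of the group seen in one coordinate -/
theorem big_mem [NeZero m] [NeZero n] (e : (ZMod m × ZMod n) → Subgroup.zpowers (a * b * a⁻¹ * b⁻¹)) :
    F (L := L) m n (fun p => (e p : Equiv.Perm L)) ∈ K m n a b := by
  classical
  have : (fun p => (e p : Equiv.Perm L)) ∈ (K m n a b).comap (F (L := L) m n) := by
    refine Subgroup.pi_mem_of_mulSingle_mem _ ?_
    rintro ⟨i, j⟩
    obtain ⟨z, hz⟩ := (e (i, j)).2
    have h := comm_mem m n a b i j
    have h2 := Subgroup.zpow_mem _ h z
    rw [← map_zpow] at h2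
    rw [Subgroup.mem_comap]
    convert h2 using 2
    rw [← Pi.mulSingle_zpow]
    congr 1
    exact hz.symm
  exact this

theorem card_le [Finite L] [NeZero m] [NeZero n] (hmn : m.Coprime n) :
    orderOf (a * b * a⁻¹ * b⁻¹) ^ (m * n) ≤ Nat.card (K m n a b) := by
  classical
  have hK := K_finite m n a b
  have hinj : Function.Injective (fun e : (ZMod m × ZMod n) → Subgroup.zpowers (a * b * a⁻¹ * b⁻¹) =>
      (⟨F (L := L) m n (fun p => (e p : Equiv.Perm L)), big_mem m n a b e⟩ : K m n a b)) := by
    intro e e' h
    have h' : (fun k : ℕ => (e ((k : ZMod m), (k : ZMod n)) : Equiv.Perm L)) =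
        fun k : ℕ => (e' ((k : ZMod m), (k : ZMod n)) : Equiv.Perm L) := congrArg Subtype.val h
    funext ⟨i, j⟩
    have hc := Nat.chineseRemainder hmn i.val j.val
    obtain ⟨k, hk1, hk2⟩ := hc
    have t1 : (k : ZMod m) = i := by
      have := (ZMod.natCast_eq_natCast_iff _ _ _).2 hk1
      rw [this, ZMod.natCast_zmod_val]
    have t2 : (k : ZMod n) = j := by
      have := (ZMod.natCast_eq_natCast_iff _ _ _).2 hk2
      rw [this, ZMod.natCast_zmod_val]
    have := congrFun h' k
    simp only [t1, t2] at this
    exact Subtype.ext this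
  have h1 := Nat.card_le_card_of_injective _ hinj
  have h2 : Nat.card ((ZMod m × ZMod n) → Subgroup.zpowers (a * b * a⁻¹ * b⁻¹)) =
      orderOf (a * b * a⁻¹ * b⁻¹) ^ (m * n) := by
    rw [Nat.card_fun, Nat.card_zpowers, Nat.card_prod, Nat.card_zmod, Nat.card_zmod]
  omega

end aut

/-! ### Transport to `Fin q` and the final count -/

/-- rename the states of an automaton -/
def rename {A B L : Type} (e : A ≃ B) (M : Mealy A L) : Mealy B L where
  δ := fun i x => e (M.δ i (e.symm x))
  ρ := fun x => M.ρ (e.symm x)

theorem rename_act {A B L : Type} (e : A ≃ B) (M : Mealy A L) (w : List L) :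
    ∀ x, (rename e M).act x w = M.act (e.symm x) w := by
  induction w with
  | nil => intro x; rfl
  | cons i w ih =>
    intro x
    change M.ρ (e.symm x) i :: (rename e M).act (e (M.δ i (e.symm x))) w = _
    rw [ih, e.symm_apply_apply]
    rfl

theorem rename_group {A B L : Type} (e : A ≃ B) (M : Mealy A L) :
    (rename e M).group = M.group := by
  unfold Mealy.group
  congr 1
  ext g
  constructor
  · rintro ⟨x, hx⟩
    exact ⟨e.symm x, fun w => by rw [hx, rename_act]⟩
  · rintro ⟨x, hx⟩
    exact ⟨e x, fun w => by rw [hx, rename_act, e.symm_apply_apply]⟩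

theorem rename_bireversible {A B L : Type} (e : A ≃ B) (M : Mealy A L) (h : M.Bireversible) :
    (rename e M).Bireversible := by
  obtain ⟨h1, h2, h3⟩ := h
  refine ⟨fun x => h1 (e.symm x), fun i => ?_, fun j => ?_⟩
  · exact e.bijective.comp ((h2 i).comp e.symm.bijective)
  · exact e.bijective.comp ((h3 j).comp e.symm.bijective)

theorem card_group_eq {L : Type} (m n : ℕ) (a b : Equiv.Perm L) :
    Nat.card (aut m n a b).group = Nat.card (K m n a b) := by
  rw [group_eq]
  exact (Nat.card_congr (Subgroup.equivMapOfInjective (K m n a b) P P_injective).toEquiv).symm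

theorem finite_group {L : Type} (m n : ℕ) (a b : Equiv.Perm L) [Finite L] [NeZero m] [NeZero n] :
    Finite (aut m n a b).group := by
  rw [group_eq]
  have := K_finite m n a b
  exact Finite.of_equiv _ (Subgroup.equivMapOfInjective (K m n a b) P P_injective).toEquiv

theorem order_three {L : Type} [DecidableEq L] [Fintype L] (x y z : L) (xy : x ≠ y) (xz : x ≠ z)
    (yz : y ≠ z) :
    orderOf (Equiv.swap x y * Equiv.swap x z * (Equiv.swap x y)⁻¹ * (Equiv.swap x z)⁻¹) = 3 := by
  have h := Equiv.Perm.isThreeCycle_swap_mul_swap_same xy xz yz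
  have h2 := h.isThreeCycle_sq
  rw [Equiv.swap_inv, Equiv.swap_inv, mul_assoc (Equiv.swap x y * Equiv.swap x z)]
  exact h2.orderOf

/-- For every alphabet size `p ≥ 3` and every constant `C` there is a `p`-letter `q`-state
bireversible Mealy automaton whose group is finite of order greater than `(p!)^(C q)`. -/
theorem result (p : ℕ) (hp : 3 ≤ p) (C : ℕ) :
    ∃ (q : ℕ) (M : Mealy (Fin q) (Fin p)),
      M.Bireversible ∧ (∀ x, Function.Bijective (M.act x)) ∧ Finite M.group ∧
        (p !) ^ (C * q) < Nat.card M.group := by
  classical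
  set k : ℕ := (p !) ^ C with hk
  have hk1 : 1 ≤ k := Nat.one_le_pow _ _ (Nat.factorial_pos p)
  set n : ℕ := 2 * k with hn
  have i1 : NeZero n := ⟨by omega⟩
  have hcop : n.Coprime (n + 1) := by simp
  set x : Fin p := ⟨0, by omega⟩
  set y : Fin p := ⟨1, by omega⟩
  set z : Fin p := ⟨2, by omega⟩
  have xy : x ≠ y := by simp [x, y]
  have xz : x ≠ z := by simp [x, z]
  have yz : y ≠ z := by simp [y, z]
  set a := Equiv.swap x y
  set b := Equiv.swap x z
  have hord : orderOf (a * b * a⁻¹ * b⁻¹) = 3 := order_three x y z xy xz yz
  have hcard : Fintype.card (St n (n + 1)) = 2 * n + 1 := by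
    rw [Fintype.card_sum, ZMod.card, ZMod.card]; ring
  obtain ⟨e⟩ : Nonempty (St n (n + 1) ≃ Fin (2 * n + 1)) := by
    rw [← hcard]
    exact ⟨Fintype.equivFin _⟩
  have hbi := rename_bireversible e _ (bireversible n (n + 1) a b)
  refine ⟨2 * n + 1, rename e (aut n (n + 1) a b), hbi,
    fun x => Mealy.act_bijective _ hbi.choose x, ?_, ?_⟩
  · rw [rename_group]
    exact finite_group _ _ _ _
  · rw [rename_group, card_group_eq]
    refine lt_of_lt_of_le ?_ (card_le n (n + 1) a b hcop)
    rw [hord, pow_mul, ← hk]
    calc k ^ (2 * n + 1) < (3 ^ k) ^ (2 * n + 1) :=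
          Nat.pow_lt_pow_left (Nat.lt_pow_self (by norm_num)) (by omega)
      _ = 3 ^ (k * (2 * n + 1)) := by rw [← pow_mul]
      _ ≤ 3 ^ (n * (n + 1)) := by
          refine Nat.pow_le_pow_right (by norm_num) ?_
          rw [hn]
          nlinarith

end Pool.Agent.Results.MP_965ec6_al.LargeFinite
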